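import Mathlib

/-!
# Elements of `p`-power order of `GL_m(ℚ_p)` have small order
-/

set_option autoImplicit false
set_option linter.all false

open Polynomial

namespace Pool.Agent.Helper47.Thin.EXO

theorem irr_zp (p : ℕ) [hp : Fact p.Prime] (n : ℕ) :
    Irreducible ((cyclotomic (p ^ (n + 1)) ℤ_[p]).comp (X + 1)) := by
  have hE := cyclotomic_prime_pow_comp_X_add_one_isEisensteinAt p n
  have hmon : ((cyclotomic (p ^ (n + 1)) ℤ_[p]).comp (X + 1)).Monic := by
    have : ((cyclotomic (p ^ (n + 1)) ℤ_[p]).comp (X + C 1)).Monic :=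
      (cyclotomic.monic _ _).comp (monic_X_add_C 1) (by rw [natDegree_X_add_C]; exact one_ne_zero)
    rwa [C_1] at this
  have hmap : (((cyclotomic (p ^ (n + 1)) ℤ).comp (X + 1)).map (Int.castRingHom ℤ_[p]))
      = (cyclotomic (p ^ (n + 1)) ℤ_[p]).comp (X + 1) := by
    rw [Polynomial.map_comp, map_cyclotomic]
    simp
  have hprime : (Ideal.span {(p : ℤ_[p])}).IsPrime := by
    rw [Ideal.span_singleton_prime (PadicInt.prime_p.ne_zero)]
    exact PadicInt.prime_p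
  have hdeg : ((cyclotomic (p ^ (n + 1)) ℤ).comp (X + 1)).natDegree
      = ((cyclotomic (p ^ (n + 1)) ℤ_[p]).comp (X + 1)).natDegree := by
    rw [← hmap]
    refine (Monic.natDegree_map ?_ _).symm
    have : ((cyclotomic (p ^ (n + 1)) ℤ).comp (X + C 1)).Monic :=
      (cyclotomic.monic _ _).comp (monic_X_add_C 1) (by rw [natDegree_X_add_C]; exact one_ne_zero)
    rwa [C_1] at this
  have hE2 : ((cyclotomic (p ^ (n + 1)) ℤ_[p]).comp (X + 1)).IsEisensteinAt
      (Ideal.span {(p : ℤ_[p])}) := by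
    refine Monic.isEisensteinAt_of_mem_of_notMem hmon hprime.ne_top ?_ ?_
    · intro i hi
      rw [← hdeg] at hi
      have h1 := hE.coeff_mem hi.ne
      rw [← hmap, coeff_map]
      rw [Ideal.submodule_span_eq, Ideal.mem_span_singleton] at h1
      obtain ⟨c, hc⟩ := h1
      rw [hc, Ideal.mem_span_singleton]
      exact ⟨(c : ℤ_[p]), by simp⟩
    · rw [coeff_zero_eq_eval_zero, eval_comp]
      have h2 : eval (eval 0 (X + 1 : ℤ_[p][X])) (cyclotomic (p ^ (n + 1)) ℤ_[p]) = (p : ℤ_[p]) := by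
        simp [eval_one_cyclotomic_prime_pow]
      rw [h2, Ideal.span_singleton_pow, Ideal.mem_span_singleton]
      intro h3
      obtain ⟨c, hc⟩ := h3
      have h4 : (p : ℤ_[p]) * (p * c - 1) = 0 := by linear_combination -hc
      rcases mul_eq_zero.mp h4 with h5 | h5
      · exact PadicInt.prime_p.ne_zero h5
      · exact PadicInt.prime_p.not_unit (IsUnit.of_mul_eq_one c (by linear_combination h5))
  refine hE2.irreducible hprime hmon.isPrimitive ?_
  rw [← hdeg]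
  have h6 : ((cyclotomic (p ^ (n + 1)) ℤ).comp (X + 1)).natDegree = (p ^ (n + 1)).totient := by
    have : (X + 1 : ℤ[X]) = X + C 1 := by simp
    rw [natDegree_comp, this, natDegree_X_add_C, mul_one, natDegree_cyclotomic]
  rw [h6]
  exact Nat.totient_pos.mpr (pow_pos hp.out.pos _)

theorem irr_qp (p : ℕ) [hp : Fact p.Prime] (n : ℕ) :
    Irreducible (cyclotomic (p ^ (n + 1)) ℚ_[p]) := by
  have h1 : Irreducible (cyclotomic (p ^ (n + 1)) ℤ_[p]) := by
    have h2 := irr_zp p n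
    have h3 : (cyclotomic (p ^ (n + 1)) ℤ_[p]).comp (X + 1)
        = algEquivAevalXAddC (1 : ℤ_[p]) (cyclotomic (p ^ (n + 1)) ℤ_[p]) := by
      simp [algEquivAevalXAddC, comp_eq_aeval]
    rw [h3] at h2
    exact (MulEquiv.irreducible_iff (algEquivAevalXAddC (1 : ℤ_[p])).toMulEquiv).mp h2
  have h4 := (Monic.irreducible_iff_irreducible_map_fraction_map (K := ℚ_[p])
    (cyclotomic.monic (p ^ (n + 1)) ℤ_[p])).mp h1
  rwa [map_cyclotomic] at h4

theorem exo : ∀ (p : ℕ) [Fact p.Prime] (m : ℕ), 0 < m →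
    ∀ (g : Matrix (Fin m) (Fin m) ℚ_[p]) (a : ℕ), g ^ p ^ a = 1 →
    ∃ b : ℕ, p ^ b ≤ 2 * p * m ∧ g ^ p ^ b = 1 := by
  intro p hp m hm g a hg
  classical
  have hex : ∃ b, g ^ p ^ b = 1 := ⟨a, hg⟩
  have hb := Nat.find_spec hex
  have hmin := fun c => Nat.find_min hex (m := c)
  set b := Nat.find hex with hbd
  refine ⟨b, ?_, hb⟩
  rcases Nat.eq_zero_or_pos b with h0 | hpos
  · rw [h0, pow_zero]
    have := hp.out.pos
    nlinarith [Nat.mul_pos this hm]
  obtain ⟨c, hc⟩ : ∃ c, b = c + 1 := ⟨b - 1, by omega⟩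
  have hc1 : ¬ g ^ p ^ c = 1 := hmin c (by omega)
  have hfac : (X ^ p ^ (c + 1) - 1 : ℚ_[p][X]) = (cyclotomic (p ^ (c + 1)) ℚ_[p]) * (X ^ p ^ c - 1) :=
    (cyclotomic_prime_pow_mul_X_pow_sub_one ℚ_[p] p c).symm
  have hd1 : minpoly ℚ_[p] g ∣ (X ^ p ^ (c + 1) - 1 : ℚ_[p][X]) := by
    apply minpoly.dvd
    rw [map_sub, map_pow, aeval_X, map_one, ← hc, hb, sub_self]
  have hd2 : ¬ minpoly ℚ_[p] g ∣ (X ^ p ^ c - 1 : ℚ_[p][X]) := by
    intro h
    apply hc1
    have := minpoly.dvd_iff.mp h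
    rw [map_sub, map_pow, aeval_X, map_one, sub_eq_zero] at this
    exact this
  have hd3 : cyclotomic (p ^ (c + 1)) ℚ_[p] ∣ minpoly ℚ_[p] g := by
    by_contra hnd
    have hcop : IsCoprime (cyclotomic (p ^ (c + 1)) ℚ_[p]) (minpoly ℚ_[p] g) :=
      (Irreducible.coprime_iff_not_dvd (irr_qp p c)).mpr hnd
    rw [hfac] at hd1
    exact hd2 (hcop.symm.dvd_of_dvd_mul_left hd1)
  have hdeg1 : (cyclotomic (p ^ (c + 1)) ℚ_[p]).natDegree ≤ (minpoly ℚ_[p] g).natDegree :=
    natDegree_le_of_dvd hd3 (minpoly.ne_zero (Matrix.isIntegral g))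
  have hdeg2 : (minpoly ℚ_[p] g).natDegree ≤ m := by
    have h := natDegree_le_of_dvd (Matrix.minpoly_dvd_charpoly g) (Matrix.charpoly_monic g).ne_zero
    rwa [Matrix.charpoly_natDegree_eq_dim, Fintype.card_fin] at h
  rw [natDegree_cyclotomic, Nat.totient_prime_pow hp.out (by omega)] at hdeg1
  have h2 : 1 ≤ p - 1 := by have := hp.out.two_le; omega
  have h3 : p ^ (c + 1 - 1) ≤ m := by
    calc p ^ (c + 1 - 1) = p ^ (c + 1 - 1) * 1 := (mul_one _).symm
      _ ≤ p ^ (c + 1 - 1) * (p - 1) := Nat.mul_le_mul_left _ h2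
      _ ≤ m := hdeg1.trans hdeg2
  rw [Nat.add_sub_cancel] at h3
  rw [hc, pow_succ]
  have := hp.out.pos
  nlinarith

end Pool.Agent.Helper47.Thin.EXO
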