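import Pool.Agent.Helper55.RT.Spec5
import Pool.Agent.Helper47.Thin.EXO0

/-!
# EXO: elements of finite `p`-power order of `GL_m(ℚ_p)` have small order
-/

set_option autoImplicit false
set_option linter.all false

namespace Pool.Agent.Helper47.Thin.EXO

theorem main : Pool.Agent.Helper55.RT.Q_EXO := by
  intro p hp m hm g a hg
  exact exo p m hm g a hg

end Pool.Agent.Helper47.Thin.EXO
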